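import Mathlib
import Pool.Agent.X140.RandIter

/-!
# No uniform comparison of consensus times of `ℓ^p`-energy dynamics across `p`
-/

namespace Pool.Agent.Results.MP_7677b2_pr.NoUniformComparison

open MeasureTheory ProbabilityTheory Set Filter
open Pool.Agent.X140.RandIter
open scoped ENNReal NNReal Topology

section defs

variable {V : Type} [Fintype V]

open Classical in
/-- The local energy `∑_{w ∼ v} |y - f w|^p`. -/
noncomputable def energy (p : ℝ) (G : SimpleGraph V) (f : V → ℝ) (v : V) (y : ℝ) : ℝ :=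
  ∑ w, if G.Adj v w then |y - f w| ^ p else 0

/-- The minimiser of the local energy. -/
noncomputable def newVal (p : ℝ) (G : SimpleGraph V) (f : V → ℝ) (v : V) : ℝ :=
  Classical.epsilon fun y => ∀ z, energy p G f v y ≤ energy p G f v z

open Classical in
/-- The profile after updating vertex `v`. -/
noncomputable def upd (p : ℝ) (G : SimpleGraph V) (v : V) (f : V → ℝ) : V → ℝ :=
  Function.update f v (newVal p G f v)

/-- Oscillation `max f - min f`. -/
noncomputable def osc (f : V → ℝ) : ℝ := (⨆ v, f v) - ⨅ v, f v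

/-- The consensus time for the update sequence `ω`: the least `t` with `osc f_t ≤ ε`
(`⊤` if there is none). -/
noncomputable def tau (p : ℝ) (G : SimpleGraph V) (f₀ : V → ℝ) (ε : ℝ) (ω : ℕ → V) : ℕ∞ :=
  ⨅ (t : ℕ) (_ : osc (traj (upd p G) f₀ ω t) ≤ ε), (t : ℕ∞)

/-- The expectation of the consensus time, over i.i.d. uniform updates. -/
noncomputable def meanTau [Nonempty V] (p : ℝ) (G : SimpleGraph V) (f₀ : V → ℝ) (ε : ℝ) : ℝ≥0∞ :=
  letI : MeasurableSpace V := ⊤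
  ∫⁻ ω, ((tau p G f₀ ε ω : ℕ∞) : ℝ≥0∞) ∂(PP V)

end defs

/-! ### The derivative of `|t|^p` -/

/-- `ψ t = |t|^(p-2) t`. -/
noncomputable def psi (p t : ℝ) : ℝ := |t| ^ (p - 2) * t

theorem psi_neg (p t : ℝ) : psi p (-t) = - psi p t := by
  unfold psi; rw [abs_neg]; ring

theorem psi_of_pos {p t : ℝ} (ht : 0 < t) : psi p t = t ^ (p - 1) := by
  unfold psi
  rw [abs_of_pos ht]
  have : t ^ (p - 1) = t ^ ((p - 2) + 1) := by congr 1; ring
  rw [this, Real.rpow_add ht, Real.rpow_one]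

theorem psi_zero (p : ℝ) : psi p 0 = 0 := by simp [psi]

theorem psi_pos {p t : ℝ} (ht : 0 < t) : 0 < psi p t := by
  rw [psi_of_pos ht]; exact Real.rpow_pos_of_pos ht _

theorem psi_mono {p : ℝ} (hp : 1 < p) : StrictMono (psi p) := by
  have hpos : ∀ s t : ℝ, 0 < s → s < t → psi p s < psi p t := by
    intro s t hs hst
    rw [psi_of_pos hs, psi_of_pos (hs.trans hst)]
    exact Real.rpow_lt_rpow hs.le hst (by linarith)
  intro s t hst
  rcases lt_trichotomy s 0 with hs | hs | hs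
  · have h1 : psi p s < 0 := by
      have := psi_pos (p := p) (t := -s) (by linarith)
      rw [psi_neg] at this
      linarith
    rcases lt_trichotomy t 0 with ht | ht | ht
    · have := hpos (-t) (-s) (by linarith) (by linarith)
      rw [psi_neg, psi_neg] at this
      linarith
    · rw [ht, psi_zero]; exact h1
    · exact h1.trans (psi_pos ht)
  · rw [hs, psi_zero]
    exact psi_pos (by linarith)
  · exact hpos s t hs hst

/-! ### The complete graph on four vertices -/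

/-- The complete graph `K₄`. -/
abbrev K4 : SimpleGraph (Fin 4) := ⊤

/-- Sum over the neighbours in `K₄`. -/
theorem sum4 (g : Fin 4 → ℝ) {v a b c : Fin 4} (h1 : v ≠ a) (h2 : v ≠ b) (h3 : v ≠ c)
    (h4 : a ≠ b) (h5 : a ≠ c) (h6 : b ≠ c) :
    (∑ w, if v ≠ w then g w else 0) = g a + g b + g c := by
  rw [← Finset.sum_filter]
  have h : (Finset.univ.filter fun w => v ≠ w) = {a, b, c} := by
    revert v a b c; decide
  rw [h, Finset.sum_insert (by simp [h4, h5]), Finset.sum_insert (by simp [h6]),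
    Finset.sum_singleton]
  ring

theorem energy_K4 (p : ℝ) (f : Fin 4 → ℝ) (v : Fin 4) (y : ℝ) :
    energy p K4 f v y = ∑ w, if v ≠ w then |y - f w| ^ p else 0 := by
  classical
  unfold energy
  refine Finset.sum_congr rfl fun w _ => ?_
  by_cases h : v = w
  · simp [h]
  · simp [h]

theorem exists_other (v : Fin 4) : ∃ a b c : Fin 4, v ≠ a ∧ v ≠ b ∧ v ≠ c ∧ a ≠ b ∧ a ≠ c ∧
    b ≠ c := by
  revert v; decide

theorem exists_min {p : ℝ} (hp : 1 < p) (f : Fin 4 → ℝ) (v : Fin 4) :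
    ∃ y, ∀ z, energy p K4 f v y ≤ energy p K4 f v z := by
  have hp0 : 0 < p := by linarith
  obtain ⟨a, b, c, h1, h2, h3, h4, h5, h6⟩ := exists_other v
  have hE : energy p K4 f v = fun y => |y - f a| ^ p + |y - f b| ^ p + |y - f c| ^ p := by
    funext y
    rw [energy_K4, sum4 (fun w => |y - f w| ^ p) h1 h2 h3 h4 h5 h6]
  have hcont : Continuous (energy p K4 f v) := by
    rw [hE]
    have hc : ∀ x : ℝ, Continuous fun y : ℝ => |y - x| ^ p := fun x =>
      (continuous_abs.comp (continuous_id.sub continuous_const)).rpow_const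
        (fun _ => Or.inr hp0.le)
    exact ((hc _).add (hc _)).add (hc _)
  have htend : Tendsto (energy p K4 f v) (cocompact ℝ) atTop := by
    have h1 : Tendsto (fun y : ℝ => |y - f a| ^ p) (cocompact ℝ) atTop := by
      refine (tendsto_rpow_atTop hp0).comp ?_
      have h2 : Tendsto (fun y : ℝ => ‖y‖ - |f a|) (cocompact ℝ) atTop :=
        tendsto_atTop_add_const_right _ _ (tendsto_norm_cocompact_atTop)
      refine tendsto_atTop_mono (fun y => ?_) h2
      rw [Real.norm_eq_abs]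
      exact abs_sub_abs_le_abs_sub y (f a)
    refine tendsto_atTop_mono (fun y => ?_) h1
    rw [hE]
    have h3 : 0 ≤ |y - f b| ^ p := by positivity
    have h4 : 0 ≤ |y - f c| ^ p := by positivity
    simp only
    linarith
  exact hcont.exists_forall_le htend

theorem newVal_spec {p : ℝ} (hp : 1 < p) (f : Fin 4 → ℝ) (v : Fin 4) :
    ∀ z, energy p K4 f v (newVal p K4 f v) ≤ energy p K4 f v z :=
  Classical.epsilon_spec (exists_min hp f v)

/-- First-order condition. -/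
theorem foc {p : ℝ} (hp : 1 < p) (f : Fin 4 → ℝ) {v a b c : Fin 4} (h1 : v ≠ a) (h2 : v ≠ b)
    (h3 : v ≠ c) (h4 : a ≠ b) (h5 : a ≠ c) (h6 : b ≠ c) :
    psi p (newVal p K4 f v - f a) + psi p (newVal p K4 f v - f b) +
      psi p (newVal p K4 f v - f c) = 0 := by
  set y := newVal p K4 f v with hy
  have hE : energy p K4 f v = fun y => |y - f a| ^ p + |y - f b| ^ p + |y - f c| ^ p := by
    funext y
    rw [energy_K4, sum4 (fun w => |y - f w| ^ p) h1 h2 h3 h4 h5 h6]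
  have hd : ∀ x : ℝ, HasDerivAt (fun y : ℝ => |y - x| ^ p) (p * psi p (y - x)) y := by
    intro x
    have h := (hasDerivAt_abs_rpow (y - x) hp).comp y ((hasDerivAt_id y).sub_const x)
    have h' : p * |y - x| ^ (p - 2) * (y - x) * 1 = p * psi p (y - x) := by
      unfold psi; ring
    rw [← h']
    exact h
  have hD : HasDerivAt (energy p K4 f v) (p * psi p (y - f a) + p * psi p (y - f b) +
      p * psi p (y - f c)) y := by
    rw [hE]
    exact ((hd (f a)).add (hd (f b))).add (hd (f c))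
  have hmin : IsLocalMin (energy p K4 f v) y := Eventually.of_forall (newVal_spec hp f v)
  have h0 := hmin.hasDerivAt_eq_zero hD
  have hp0 : p ≠ 0 := by linarith
  have : p * (psi p (y - f a) + psi p (y - f b) + psi p (y - f c)) = 0 := by linarith
  exact (mul_eq_zero.mp this).resolve_left hp0

theorem newVal_le {p : ℝ} (hp : 1 < p) {f : Fin 4 → ℝ} {v : Fin 4} {m : ℝ}
    (h : ∀ w, w ≠ v → f w ≤ m) : newVal p K4 f v ≤ m := by
  obtain ⟨a, b, c, h1, h2, h3, h4, h5, h6⟩ := exists_other v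
  by_contra hcon
  push Not at hcon
  have hf := foc hp f h1 h2 h3 h4 h5 h6
  have ha := psi_pos (p := p) (t := newVal p K4 f v - f a) (by linarith [h a h1.symm])
  have hb := psi_pos (p := p) (t := newVal p K4 f v - f b) (by linarith [h b h2.symm])
  have hc := psi_pos (p := p) (t := newVal p K4 f v - f c) (by linarith [h c h3.symm])
  linarith

theorem le_newVal {p : ℝ} (hp : 1 < p) {f : Fin 4 → ℝ} {v : Fin 4} {m : ℝ}
    (h : ∀ w, w ≠ v → m ≤ f w) : m ≤ newVal p K4 f v := by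
  obtain ⟨a, b, c, h1, h2, h3, h4, h5, h6⟩ := exists_other v
  by_contra hcon
  push Not at hcon
  have hf := foc hp f h1 h2 h3 h4 h5 h6
  have key : ∀ w, w ≠ v → psi p (newVal p K4 f v - f w) < 0 := by
    intro w hw
    have := psi_pos (p := p) (t := -(newVal p K4 f v - f w)) (by linarith [h w hw])
    rw [psi_neg] at this
    linarith
  linarith [key a h1.symm, key b h2.symm, key c h3.symm]

/-- Halving lemma: one large neighbour (equal to `b`) and one neighbour above the midpoint. -/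
theorem le_newVal_mid {p : ℝ} (hp : 1 < p) {f : Fin 4 → ℝ} {v x u₃ u₄ : Fin 4} (h1 : v ≠ x)
    (h2 : v ≠ u₃) (h3 : v ≠ u₄) (h4 : x ≠ u₃) (h5 : x ≠ u₄) (h6 : u₃ ≠ u₄) {a b : ℝ}
    (ha : a ≤ f x) (hm : (a + b) / 2 ≤ f u₃) (hb : f u₄ = b) :
    (a + b) / 2 ≤ newVal p K4 f v := by
  by_contra hcon
  push Not at hcon
  have hf := foc hp f h1 h2 h3 h4 h5 h6
  set y := newVal p K4 f v
  have e1 : psi p (y - f x) ≤ psi p (y - a) := (psi_mono hp).monotone (by linarith)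
  have e2 : psi p (y - f u₃) < 0 := by
    rw [← psi_zero p]
    exact psi_mono hp (by linarith)
  have e3 : psi p (y - f u₄) < - psi p (y - a) := by
    rw [← psi_neg]
    exact psi_mono hp (by rw [hb]; linarith)
  linarith

/-- Growth lemma for `p` near one. -/
theorem newVal_growth {p : ℝ} (hp : 1 < p) {f : Fin 4 → ℝ} {v s a b : Fin 4} (h1 : v ≠ s)
    (h2 : v ≠ a) (h3 : v ≠ b) (h4 : s ≠ a) (h5 : s ≠ b) (h6 : a ≠ b) {x δ : ℝ} (hx : 0 ≤ x)
    (hs : f s ≤ 1) (ha : f a ≤ x) (hb : f b ≤ x) (hδ : 0 < δ) (hδp : 1 / 2 ≤ δ ^ (p - 1)) :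
    newVal p K4 f v ≤ x + δ := by
  by_contra hcon
  push Not at hcon
  have hf := foc hp f h1 h2 h3 h4 h5 h6
  set y := newVal p K4 f v
  have e0 : 1 / 2 ≤ psi p δ := by rw [psi_of_pos hδ]; exact hδp
  have e1 : psi p δ < psi p (y - f a) := psi_mono hp (by linarith)
  have e2 : psi p δ < psi p (y - f b) := psi_mono hp (by linarith)
  have e3 : -1 ≤ psi p (y - f s) := by
    have h0 : psi p (-1) = -1 := by
      rw [psi_neg, psi_of_pos one_pos, Real.one_rpow]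
    rw [← h0]
    exact (psi_mono hp).monotone (by linarith)
  linarith

theorem upd_same (p : ℝ) (f : Fin 4 → ℝ) (v : Fin 4) : upd p K4 v f v = newVal p K4 f v := by
  classical
  unfold upd; simp

theorem upd_of_ne (p : ℝ) (f : Fin 4 → ℝ) {v w : Fin 4} (h : w ≠ v) : upd p K4 v f w = f w := by
  classical
  unfold upd; simp [h]

/-- Values stay in any interval containing them. -/
theorem upd_mem {p : ℝ} (hp : 1 < p) {f : Fin 4 → ℝ} {a b : ℝ} (h : ∀ w, a ≤ f w ∧ f w ≤ b)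
    (v : Fin 4) : ∀ w, a ≤ upd p K4 v f w ∧ upd p K4 v f w ≤ b := by
  intro w
  by_cases hw : w = v
  · subst hw
    rw [upd_same]
    exact ⟨le_newVal hp fun u _ => (h u).1, newVal_le hp fun u _ => (h u).2⟩
  · rw [upd_of_ne p f hw]
    exact h w

theorem osc_le {f : Fin 4 → ℝ} {a b : ℝ} (h : ∀ w, a ≤ f w ∧ f w ≤ b) : osc f ≤ b - a := by
  unfold osc
  have h1 : (⨆ v, f v) ≤ b := ciSup_le fun v => (h v).2
  have h2 : a ≤ ⨅ v, f v := le_ciInf fun v => (h v).1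
  linarith

theorem le_osc (f : Fin 4 → ℝ) (u v : Fin 4) : f u - f v ≤ osc f := by
  unfold osc
  have h1 : f u ≤ ⨆ v, f v := le_ciSup (Set.finite_range f).bddAbove u
  have h2 : (⨅ v, f v) ≤ f v := ciInf_le (Set.finite_range f).bddBelow v
  linarith

/-- `osc f ≤ ε` means that all values lie in an interval of length at most `ε`. -/
theorem osc_le_iff {f : Fin 4 → ℝ} {ε : ℝ} :
    osc f ≤ ε ↔ ∃ a b, b - a ≤ ε ∧ ∀ w, a ≤ f w ∧ f w ≤ b := by
  constructor
  · intro h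
    exact ⟨⨅ v, f v, ⨆ v, f v, h, fun w =>
      ⟨ciInf_le (Set.finite_range f).bddBelow w, le_ciSup (Set.finite_range f).bddAbove w⟩⟩
  · rintro ⟨a, b, h1, h2⟩
    exact (osc_le h2).trans h1

theorem osc_upd_le {p : ℝ} (hp : 1 < p) {f : Fin 4 → ℝ} {ε : ℝ} (h : osc f ≤ ε) (v : Fin 4) :
    osc (upd p K4 v f) ≤ ε := by
  rw [osc_le_iff] at h ⊢
  obtain ⟨a, b, h1, h2⟩ := h
  exact ⟨a, b, h1, upd_mem hp h2 v⟩

theorem exists_fourth (u v : Fin 4) (h : u ≠ v) : ∃ x y : Fin 4, x ≠ y ∧ x ≠ u ∧ x ≠ v ∧ y ≠ u ∧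
    y ≠ v ∧ ∀ w, w = x ∨ w = y ∨ w = u ∨ w = v := by
  revert u v; decide

/-- Two suitable updates halve the oscillation. -/
theorem halving {p : ℝ} (hp : 1 < p) {f : Fin 4 → ℝ} {a b : ℝ} (h : ∀ w, a ≤ f w ∧ f w ≤ b) :
    ∃ v₁ v₂ : Fin 4, ∃ a' b', b' - a' ≤ (b - a) / 2 ∧
      ∀ w, a' ≤ upd p K4 v₂ (upd p K4 v₁ f) w ∧ upd p K4 v₂ (upd p K4 v₁ f) w ≤ b' := by
  obtain ⟨u₄, -, hu₄⟩ := Finset.exists_max_image (Finset.univ : Finset (Fin 4)) f
    Finset.univ_nonempty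
  have hmax : ∀ w, f w ≤ f u₄ := fun w => hu₄ w (Finset.mem_univ w)
  set b₀ := f u₄ with hb₀
  have hb₀b : b₀ ≤ b := (h u₄).2
  by_cases hc : ∃ u₃, u₃ ≠ u₄ ∧ (a + b₀) / 2 ≤ f u₃
  · obtain ⟨u₃, hne, hu₃⟩ := hc
    obtain ⟨x, y, hxy, hx3, hx4, hy3, hy4, hall⟩ := exists_fourth u₃ u₄ hne
    refine ⟨x, y, (a + b₀) / 2, b₀, by linarith, ?_⟩
    have hfin : ∀ w, a ≤ f w ∧ f w ≤ b₀ := fun w => ⟨(h w).1, hmax w⟩
    have h1 := upd_mem hp hfin x
    have hxv : (a + b₀) / 2 ≤ upd p K4 x f x := by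
      rw [upd_same]
      exact le_newVal_mid hp hxy hx3 hx4 hy3 hy4 hne (h y).1 hu₃ rfl
    have h2 := upd_mem hp h1 y
    intro w
    refine ⟨?_, (h2 w).2⟩
    have hab : (a + b₀) / 2 ≤ b₀ := by linarith [(h u₄).1]
    have hu3' : (a + b₀) / 2 ≤ upd p K4 x f u₃ := by
      rw [upd_of_ne p f hx3.symm]; exact hu₃
    have hu4' : (a + b₀) / 2 ≤ upd p K4 x f u₄ := by
      rw [upd_of_ne p f hx4.symm]; exact hab
    have hothers : ∀ w, w ≠ y → (a + b₀) / 2 ≤ upd p K4 x f w := by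
      intro w hw
      rcases hall w with rfl | rfl | rfl | rfl
      · exact hxv
      · exact absurd rfl hw
      · exact hu3'
      · exact hu4'
    by_cases hwy : w = y
    · rw [hwy, upd_same]
      exact le_newVal hp hothers
    · rw [upd_of_ne p _ hwy]
      exact hothers w hwy
  · push Not at hc
    refine ⟨u₄, u₄, a, (a + b₀) / 2, by linarith, ?_⟩
    have h1 : ∀ w, a ≤ upd p K4 u₄ f w ∧ upd p K4 u₄ f w ≤ (a + b₀) / 2 := by
      intro w
      by_cases hw : w = u₄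
      · rw [hw, upd_same]
        exact ⟨le_newVal hp fun u _ => (h u).1, newVal_le hp fun u hu => (hc u hu).le⟩
      · rw [upd_of_ne p f hw]
        exact ⟨(h w).1, (hc w hw).le⟩
    exact upd_mem hp h1 u₄

/-! ### Uniform tail bound -/

/-- Reachability of consensus by a word of length `k`. -/
def reach (p ε : ℝ) : ℕ → (Fin 4 → ℝ) → Prop
  | 0, f => osc f ≤ ε
  | k + 1, f => ∃ v, reach p ε k (upd p K4 v f)

theorem reach_of_le {p : ℝ} (hp : 1 < p) {ε : ℝ} (K : ℕ) : ∀ {f : Fin 4 → ℝ} {a b : ℝ},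
    (∀ w, a ≤ f w ∧ f w ≤ b) → b - a ≤ 2 ^ K * ε → reach p ε (2 * K) f := by
  induction K with
  | zero =>
    intro f a b h hab
    show osc f ≤ ε
    exact (osc_le h).trans (by simpa using hab)
  | succ K ih =>
    intro f a b h hab
    obtain ⟨v₁, v₂, a', b', hab', h'⟩ := halving hp h
    show ∃ v, reach p ε (2 * K + 1) (upd p K4 v f)
    refine ⟨v₁, v₂, ih h' ?_⟩
    rw [pow_succ] at hab
    linarith

/-- The failure probability of a word of length `k`. -/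
noncomputable def rr : ℕ → ℝ≥0∞
  | 0 => 0
  | k + 1 => (3 + rr k) / 4

theorem rr_lt_one (k : ℕ) : rr k < 1 := by
  induction k with
  | zero => simp [rr]
  | succ k ih =>
    rw [rr, ENNReal.div_lt_iff (by simp) (by simp), one_mul]
    calc 3 + rr k < 3 + 1 := ENNReal.add_lt_add_left (by simp) ih
      _ = 4 := by norm_num

open Classical in
/-- Indicator of no consensus. -/
noncomputable def hh (ε : ℝ) (f : Fin 4 → ℝ) : ℝ≥0∞ := if osc f ≤ ε then 0 else 1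

theorem hh_le_one (ε : ℝ) (f : Fin 4 → ℝ) : hh ε f ≤ 1 := by
  unfold hh; split_ifs <;> simp

/-- The unit cube. -/
def Cube (f : Fin 4 → ℝ) : Prop := ∀ w, 0 ≤ f w ∧ f w ≤ 1

theorem T_apply (p : ℝ) (h : (Fin 4 → ℝ) → ℝ≥0∞) (f : Fin 4 → ℝ) :
    T (upd p K4) h f = (∑ v, h (upd p K4 v f)) / 4 := by
  unfold T; simp

theorem T_le {p : ℝ} (hp : 1 < p) {h : (Fin 4 → ℝ) → ℝ≥0∞} {c : ℝ≥0∞}
    (hc : ∀ f, Cube f → h f ≤ c) : ∀ f, Cube f → T (upd p K4) h f ≤ c := by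
  intro f hf
  rw [T_apply]
  apply ENNReal.div_le_of_le_mul
  calc ∑ v, h (upd p K4 v f) ≤ ∑ _v : Fin 4, c :=
        Finset.sum_le_sum fun v _ => hc _ (upd_mem hp hf v)
    _ = c * 4 := by simp [mul_comm]

theorem Tit_le {p : ℝ} (hp : 1 < p) {h : (Fin 4 → ℝ) → ℝ≥0∞} {c : ℝ≥0∞}
    (hc : ∀ f, Cube f → h f ≤ c) (k : ℕ) : ∀ f, Cube f → (T (upd p K4))^[k] h f ≤ c := by
  induction k with
  | zero => exact hc
  | succ k ih =>
    intro f hf
    rw [Function.iterate_succ_apply']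
    exact T_le hp ih f hf

theorem T_zero {p : ℝ} (hp : 1 < p) {ε : ℝ} (k : ℕ) : ∀ f : Fin 4 → ℝ, osc f ≤ ε →
    (T (upd p K4))^[k] (hh ε) f = 0 := by
  induction k with
  | zero => intro f hf; simp [hh, hf]
  | succ k ih =>
    intro f hf
    rw [Function.iterate_succ_apply', T_apply]
    have : ∑ v, (T (upd p K4))^[k] (hh ε) (upd p K4 v f) = 0 :=
      Finset.sum_eq_zero fun v _ => ih _ (osc_upd_le hp hf v)
    rw [this]
    simp

theorem T_reach {p : ℝ} (hp : 1 < p) {ε : ℝ} {t : ℕ} {c : ℝ≥0∞}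
    (hc : ∀ f, Cube f → (T (upd p K4))^[t] (hh ε) f ≤ c) (k : ℕ) :
    ∀ f, Cube f → reach p ε k f → (T (upd p K4))^[k + t] (hh ε) f ≤ rr k * c := by
  induction k with
  | zero =>
    intro f _ hr
    rw [zero_add, T_zero hp t f hr]
    exact zero_le
  | succ k ih =>
    intro f hf hr
    obtain ⟨v₀, hv₀⟩ := hr
    rw [show k + 1 + t = (k + t) + 1 by ring, Function.iterate_succ_apply', T_apply]
    have hall : ∀ v, (T (upd p K4))^[k + t] (hh ε) (upd p K4 v f) ≤ c := by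
      intro v
      rw [Function.iterate_add_apply]
      exact Tit_le hp hc k _ (upd_mem hp hf v)
    have h0 := ih _ (upd_mem hp hf v₀) hv₀
    rw [rr]
    have hsum : ∑ v, (T (upd p K4))^[k + t] (hh ε) (upd p K4 v f) ≤ (3 + rr k) * c := by
      rw [← Finset.sum_erase_add _ _ (Finset.mem_univ v₀), add_mul]
      refine add_le_add ?_ h0
      calc ∑ v ∈ Finset.univ.erase v₀, (T (upd p K4))^[k + t] (hh ε) (upd p K4 v f)
          ≤ ∑ _v ∈ Finset.univ.erase v₀, c := Finset.sum_le_sum fun v _ => hall v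
        _ = 3 * c := by simp
    calc (∑ v, (T (upd p K4))^[k + t] (hh ε) (upd p K4 v f)) / 4 ≤ ((3 + rr k) * c) / 4 := by
          gcongr
      _ = (3 + rr k) / 4 * c := by
          rw [div_eq_mul_inv, div_eq_mul_inv]; ring

theorem T_geom {p : ℝ} (hp : 1 < p) {ε : ℝ} {K : ℕ} (hK : 1 ≤ 2 ^ K * ε) (j : ℕ) :
    ∀ f, Cube f → (T (upd p K4))^[2 * K * j] (hh ε) f ≤ rr (2 * K) ^ j := by
  induction j with
  | zero => intro f _; simpa using hh_le_one ε f
  | succ j ih =>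
    intro f hf
    have h := T_reach hp ih (2 * K) f hf (reach_of_le hp K hf (by linarith))
    rw [show 2 * K * (j + 1) = 2 * K + 2 * K * j by ring, pow_succ,
      mul_comm (rr (2 * K) ^ j) (rr (2 * K))]
    exact h

theorem T_geom' {p : ℝ} (hp : 1 < p) {ε : ℝ} {K : ℕ} (hK : 1 ≤ 2 ^ K * ε) (t : ℕ)
    (f : Fin 4 → ℝ) (hf : Cube f) :
    (T (upd p K4))^[t] (hh ε) f ≤ rr (2 * K) ^ (t / (2 * K)) := by
  have h := Tit_le hp (T_geom hp hK (t / (2 * K))) (t % (2 * K)) f hf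
  rw [← Function.iterate_add_apply] at h
  have e : t % (2 * K) + 2 * K * (t / (2 * K)) = t := Nat.mod_add_div t (2 * K)
  rw [e] at h
  exact h

theorem summable_geom {r : ℝ≥0∞} (hr : r < 1) {L : ℕ} (hL : 0 < L) :
    ∑' t : ℕ, r ^ (t / L) ≠ ⊤ := by
  have : NeZero L := ⟨hL.ne'⟩
  have h : ∑' t : ℕ, r ^ (t / L) = ∑' z : ℕ × Fin L, r ^ z.1 := by
    rw [← (Nat.divModEquiv L).tsum_eq]
    rfl
  rw [h, ENNReal.tsum_prod']
  have h2 : ∀ a : ℕ, ∑' _b : Fin L, r ^ a = (L : ℝ≥0∞) * r ^ a := by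
    intro a
    rw [tsum_fintype, Finset.sum_const, Finset.card_univ, Fintype.card_fin, nsmul_eq_mul]
  simp only [h2]
  rw [ENNReal.tsum_mul_left, ENNReal.tsum_geometric]
  refine ENNReal.mul_ne_top (by simp) ?_
  rw [ENNReal.inv_ne_top]
  exact (tsub_pos_of_lt hr).ne'

/-! ### The consensus time -/

open Classical in
/-- Indicator that consensus is not reached up to time `t`. -/
noncomputable def II (p ε : ℝ) (f₀ : Fin 4 → ℝ) (t : ℕ) (ω : ℕ → Fin 4) : ℝ≥0∞ :=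
  if ∀ s ≤ t, ε < osc (traj (upd p K4) f₀ ω s) then 1 else 0

theorem tau_le_tsum (p ε : ℝ) (f₀ : Fin 4 → ℝ) (ω : ℕ → Fin 4) :
    ((tau p K4 f₀ ε ω : ℕ∞) : ℝ≥0∞) ≤ ∑' t, II p ε f₀ t ω := by
  have key : ∀ N : ℕ, (N : ℕ∞) ≤ tau p K4 f₀ ε ω → (N : ℝ≥0∞) ≤ ∑' t, II p ε f₀ t ω := by
    intro N hN
    have h1 : ∀ t < N, II p ε f₀ t ω = 1 := by
      intro t ht
      unfold II
      rw [if_pos]
      intro s hs
      by_contra hcon
      push Not at hcon
      have h2 : tau p K4 f₀ ε ω ≤ (s : ℕ∞) := iInf₂_le s hcon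
      have h3 : (N : ℕ∞) ≤ (s : ℕ∞) := hN.trans h2
      have h4 : N ≤ s := by exact_mod_cast h3
      omega
    calc (N : ℝ≥0∞) = ∑ t ∈ Finset.range N, II p ε f₀ t ω := by
          rw [Finset.sum_congr rfl fun t ht => h1 t (Finset.mem_range.mp ht)]
          simp
      _ ≤ ∑' t, II p ε f₀ t ω := ENNReal.sum_le_tsum _
  rcases h : tau p K4 f₀ ε ω with _ | n
  · have h2 : tau p K4 f₀ ε ω = ⊤ := h
    have h3 : ∑' t, II p ε f₀ t ω = ⊤ := by
      apply ENNReal.eq_top_of_forall_nnreal_le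
      intro r
      obtain ⟨N, hN⟩ := exists_nat_ge r
      calc (r : ℝ≥0∞) ≤ (N : ℝ≥0∞) := by exact_mod_cast hN
        _ ≤ _ := key N (by rw [h2]; exact le_top)
    rw [h3]
    exact le_top
  · have h2 : tau p K4 f₀ ε ω = (n : ℕ∞) := h
    exact key n (by rw [h2])

theorem meas_II (p ε : ℝ) (f₀ : Fin 4 → ℝ) (t : ℕ) : Measurable (II p ε f₀ t) := by
  refine measurable_of_factor t _ fun ω ω' h => ?_
  unfold II
  have : ∀ s ≤ t, traj (upd p K4) f₀ ω s = traj (upd p K4) f₀ ω' s := fun s hs =>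
    traj_congr _ _ fun i hi => h i (lt_of_lt_of_le hi hs)
  congr 1
  apply propext
  constructor
  · intro h1 s hs
    rw [← this s hs]; exact h1 s hs
  · intro h1 s hs
    rw [this s hs]; exact h1 s hs

theorem lint_II_le {p : ℝ} (ε : ℝ) (f₀ : Fin 4 → ℝ) (t : ℕ) :
    ∫⁻ ω, II p ε f₀ t ω ∂(PP (Fin 4)) ≤ (T (upd p K4))^[t] (hh ε) f₀ := by
  rw [← lintegral_traj]
  apply lintegral_mono
  intro ω
  show II p ε f₀ t ω ≤ hh ε (traj (upd p K4) f₀ ω t)
  unfold II hh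
  split_ifs with h1 h2
  · exact absurd h2 (not_le.mpr (h1 t le_rfl))
  · exact le_rfl
  · exact le_rfl
  · exact zero_le

/-! ### The initial profile and `p` near `1` -/

/-- The indicator of vertex `0`. -/
def ff (w : Fin 4) : ℝ := if w = 0 then 1 else 0

theorem cube_ff : Cube ff := by
  intro w; unfold ff; split_ifs <;> simp

theorem exists_two (v : Fin 4) (h : v ≠ 0) : ∃ a b : Fin 4, v ≠ a ∧ v ≠ b ∧ (0 : Fin 4) ≠ a ∧
    (0 : Fin 4) ≠ b ∧ a ≠ b := by
  revert v; decide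

theorem small_growth {p δ : ℝ} (hp : 1 < p) (hδ : 0 < δ) (hδp : 1 / 2 ≤ δ ^ (p - 1))
    (ω : ℕ → Fin 4) (t : ℕ) : (∀ s < t, ω s ≠ 0) →
    traj (upd p K4) ff ω t 0 = 1 ∧ ∀ u, u ≠ 0 → 0 ≤ traj (upd p K4) ff ω t u ∧
      traj (upd p K4) ff ω t u ≤ t * δ := by
  induction t with
  | zero =>
    intro _
    refine ⟨by simp [traj, ff], fun u hu => by simp [traj, ff, hu]⟩
  | succ t ih =>
    intro h
    obtain ⟨h0, hu⟩ := ih fun s hs => h s (Nat.lt_succ_of_lt hs)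
    have hω : ω t ≠ 0 := h t (Nat.lt_succ_self t)
    simp only [traj]
    set f := traj (upd p K4) ff ω t with hf
    refine ⟨by rw [upd_of_ne p f hω.symm]; exact h0, fun u hu0 => ?_⟩
    have ht0 : (0 : ℝ) ≤ t * δ := by positivity
    have htt : (t : ℝ) * δ ≤ ((t + 1 : ℕ) : ℝ) * δ := by
      push_cast
      nlinarith
    by_cases huω : u = ω t
    · obtain ⟨a, b, h1, h2, h3, h4, h5⟩ := exists_two u hu0
      rw [← huω, upd_same]
      constructor
      · apply le_newVal hp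
        intro w _
        by_cases hw : w = 0
        · rw [hw, h0]; norm_num
        · exact (hu w hw).1
      · have := newVal_growth hp (v := u) (s := 0) hu0 h1 h2 h3 h4 h5 ht0 h0.le
          (hu a h3.symm).2 (hu b h4.symm).2 hδ hδp
        push_cast
        linarith
    · rw [upd_of_ne p f huω]
      exact ⟨(hu u hu0).1, (hu u hu0).2.trans htt⟩

theorem tau_small {p δ ε : ℝ} (hp : 1 < p) (hδ : 0 < δ) (hδp : 1 / 2 ≤ δ ^ (p - 1))
    (ω : ℕ → Fin 4) {t : ℕ} (ht : t * δ ≤ ε) (h : ∀ s ≤ t, ε < osc (traj (upd p K4) ff ω s)) :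
    ∀ s < t, ω s ≠ 0 := by
  by_contra hcon
  push Not at hcon
  classical
  have hex : ∃ s, s < t ∧ ω s = 0 := hcon
  set s := Nat.find hex with hs
  obtain ⟨hst, hs0⟩ := Nat.find_spec hex
  have hmin : ∀ i < s, ω i ≠ 0 := by
    intro i hi hi0
    exact Nat.find_min hex hi ⟨lt_trans hi hst, hi0⟩
  obtain ⟨h0, hu⟩ := small_growth hp hδ hδp ω s hmin
  have hosc := h (s + 1) hst
  simp only [traj] at hosc
  set f := traj (upd p K4) ff ω s with hf
  have hs0' : ω s = 0 := hs0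
  rw [hs0'] at hosc
  have hle : osc (upd p K4 0 f) ≤ s * δ - 0 := by
    apply osc_le
    intro w
    by_cases hw : w = 0
    · rw [hw, upd_same]
      exact ⟨le_newVal hp fun u hu' => (hu u hu').1, newVal_le hp fun u hu' => (hu u hu').2⟩
    · rw [upd_of_ne p f hw]
      exact hu w hw
  have hsd : (s : ℝ) * δ ≤ t * δ := by
    have : (s : ℝ) ≤ t := by exact_mod_cast hst.le
    gcongr
  linarith

theorem P_avoid (t : ℕ) : (PP (Fin 4)) {ω | ∀ s < t, ω s ≠ 0} = (3 / 4 : ℝ≥0∞) ^ t := by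
  have hset : {ω : ℕ → Fin 4 | ∀ s < t, ω s ≠ 0} =
      Set.pi (Finset.range t : Finset ℕ) (fun _ => ({0} : Set (Fin 4))ᶜ) := by
    ext ω
    simp [Set.pi]
  rw [hset]
  unfold PP
  rw [Measure.infinitePi_pi _ (fun _ _ => (measurableSet_singleton 0).compl)]
  rw [Finset.prod_const, Finset.card_range]
  congr 1
  rw [prob_compl_eq_one_sub (measurableSet_singleton 0),
    PMF.toMeasure_apply_singleton _ _ (measurableSet_singleton 0)]
  simp only [PMF.uniformOfFintype_apply, Fintype.card_fin]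
  have h4 : (1 : ℝ≥0∞) = 3 / 4 + ((4 : ℕ) : ℝ≥0∞)⁻¹ := by
    rw [div_eq_mul_inv]
    push_cast
    have : (3 : ℝ≥0∞) * 4⁻¹ + 4⁻¹ = 4 * 4⁻¹ := by
      rw [show (4 : ℝ≥0∞) * 4⁻¹ = (3 + 1) * 4⁻¹ by norm_num, add_mul, one_mul]
    rw [this, ENNReal.mul_inv_cancel (by norm_num) (by norm_num)]
  conv_lhs => rw [h4]
  rw [ENNReal.add_sub_cancel_right]
  simp

theorem lint_II_small {p δ ε : ℝ} (hp : 1 < p) (hδ : 0 < δ) (hδp : 1 / 2 ≤ δ ^ (p - 1))
    {t : ℕ} (ht : t * δ ≤ ε) : ∫⁻ ω, II p ε ff t ω ∂(PP (Fin 4)) ≤ (3 / 4 : ℝ≥0∞) ^ t := by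
  rw [← P_avoid t]
  have hms : MeasurableSet {ω : ℕ → Fin 4 | ∀ s < t, ω s ≠ 0} := by
    have hset : {ω : ℕ → Fin 4 | ∀ s < t, ω s ≠ 0} =
        Set.pi (Finset.range t : Finset ℕ) (fun _ => ({0} : Set (Fin 4))ᶜ) := by
      ext ω
      simp [Set.pi]
    rw [hset]
    exact MeasurableSet.pi (Finset.countable_toSet _) fun _ _ => (measurableSet_singleton 0).compl
  calc ∫⁻ ω, II p ε ff t ω ∂(PP (Fin 4))
      ≤ ∫⁻ ω, ({ω : ℕ → Fin 4 | ∀ s < t, ω s ≠ 0} : Set (ℕ → Fin 4)).indicator 1 ω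
        ∂(PP (Fin 4)) := by
        apply lintegral_mono
        intro ω
        show II p ε ff t ω ≤ _
        unfold II
        split_ifs with h
        · rw [indicator_of_mem (show ω ∈ ({ω : ℕ → Fin 4 | ∀ s < t, ω s ≠ 0} : Set _) from
            tau_small hp hδ hδp ω ht h)]
          exact le_rfl
        · exact zero_le
    _ = _ := lintegral_indicator_one hms

theorem split_tsum (a : ℕ → ℝ≥0∞) (M : ℕ) :
    ∑' t, a t = ∑ t ∈ Finset.range M, a t + ∑' t, a (t + M) :=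
  (Summable.sum_add_tsum_nat_add' (f := a) (k := M) ENNReal.summable).symm

theorem upper {p δ ε : ℝ} (hp : 1 < p) (hδ : 0 < δ) (hδp : 1 / 2 ≤ δ ^ (p - 1)) {K M : ℕ}
    (hK : 1 ≤ 2 ^ K * ε) (hM : ∑' t : ℕ, rr (2 * K) ^ ((t + M) / (2 * K)) ≤ 1)
    (hMδ : M * δ ≤ ε) : meanTau p K4 ff ε ≤ 5 := by
  have h1 : meanTau p K4 ff ε = ∫⁻ ω, ((tau p K4 ff ε ω : ℕ∞) : ℝ≥0∞) ∂(PP (Fin 4)) := rfl
  rw [h1]
  calc ∫⁻ ω, ((tau p K4 ff ε ω : ℕ∞) : ℝ≥0∞) ∂(PP (Fin 4))
      ≤ ∫⁻ ω, ∑' t, II p ε ff t ω ∂(PP (Fin 4)) := lintegral_mono fun ω => tau_le_tsum p ε ff ω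
    _ = ∑' t, ∫⁻ ω, II p ε ff t ω ∂(PP (Fin 4)) :=
        lintegral_tsum fun t => (meas_II p ε ff t).aemeasurable
    _ = ∑ t ∈ Finset.range M, ∫⁻ ω, II p ε ff t ω ∂(PP (Fin 4)) +
          ∑' t, ∫⁻ ω, II p ε ff (t + M) ω ∂(PP (Fin 4)) :=
        split_tsum (fun t => ∫⁻ ω, II p ε ff t ω ∂(PP (Fin 4))) M
    _ ≤ 4 + 1 := by
        refine add_le_add ?_ ?_
        · calc ∑ t ∈ Finset.range M, ∫⁻ ω, II p ε ff t ω ∂(PP (Fin 4))
              ≤ ∑ t ∈ Finset.range M, (3 / 4 : ℝ≥0∞) ^ t := by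
                refine Finset.sum_le_sum fun t ht => lint_II_small hp hδ hδp ?_
                have htM : (t : ℝ) ≤ M := by exact_mod_cast (Finset.mem_range.mp ht).le
                calc (t : ℝ) * δ ≤ M * δ := by gcongr
                  _ ≤ ε := hMδ
            _ ≤ ∑' t : ℕ, (3 / 4 : ℝ≥0∞) ^ t := ENNReal.sum_le_tsum _
            _ = (1 - 3 / 4)⁻¹ := ENNReal.tsum_geometric _
            _ = 4 := by
                have h34 : (1 : ℝ≥0∞) - 3 / 4 = 4⁻¹ := by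
                  have h4 : (1 : ℝ≥0∞) = 4⁻¹ + 3 / 4 := by
                    rw [div_eq_mul_inv]
                    have : (4 : ℝ≥0∞)⁻¹ + 3 * 4⁻¹ = 4 * 4⁻¹ := by
                      rw [show (4 : ℝ≥0∞) * 4⁻¹ = (1 + 3) * 4⁻¹ by norm_num, add_mul, one_mul]
                    rw [this, ENNReal.mul_inv_cancel (by norm_num) (by norm_num)]
                  conv_lhs => rw [h4]
                  rw [ENNReal.add_sub_cancel_right]
                  exact ENNReal.div_ne_top (by simp) (by simp)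
                rw [h34, inv_inv]
        · calc ∑' t, ∫⁻ ω, II p ε ff (t + M) ω ∂(PP (Fin 4))
              ≤ ∑' t : ℕ, rr (2 * K) ^ ((t + M) / (2 * K)) :=
                ENNReal.tsum_le_tsum fun t =>
                  (lint_II_le ε ff (t + M)).trans (T_geom' hp hK (t + M) ff cube_ff)
            _ ≤ 1 := hM
    _ = 5 := by norm_num

/-! ### The quadratic dynamics -/

theorem psi_two (t : ℝ) : psi 2 t = t := by
  unfold psi; simp

theorem newVal_two (f : Fin 4 → ℝ) {v a b c : Fin 4} (h1 : v ≠ a) (h2 : v ≠ b)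
    (h3 : v ≠ c) (h4 : a ≠ b) (h5 : a ≠ c) (h6 : b ≠ c) :
    newVal 2 K4 f v = (f a + f b + f c) / 3 := by
  have h := foc (p := 2) (by norm_num) f h1 h2 h3 h4 h5 h6
  rw [psi_two, psi_two, psi_two] at h
  linarith

/-- Integral structure of the profile: `l` is the last updated vertex. -/
def Inv (f : Fin 4 → ℝ) (l : Fin 4) (e : ℕ) : Prop :=
  ∃ N : Fin 4 → ℤ, (∀ v, f v = (N v : ℝ) / 3 ^ e) ∧ ¬ (3 ∣ N l) ∧ ∀ v, v ≠ l → 3 ∣ N v

theorem inv_osc {f : Fin 4 → ℝ} {l : Fin 4} {e : ℕ} (h : Inv f l e) : 1 / 3 ^ e ≤ osc f := by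
  obtain ⟨N, hN, h1, h2⟩ := h
  obtain ⟨a, -, -, hla, -⟩ := exists_other l
  have hne : N l ≠ N a := by
    intro heq
    rw [heq] at h1
    exact h1 (h2 a hla.symm)
  rcases lt_or_gt_of_ne hne with hlt | hlt
  · have h3 := le_osc f a l
    rw [hN a, hN l] at h3
    refine le_trans ?_ h3
    rw [← sub_div]
    have : (1 : ℝ) ≤ (N a : ℝ) - N l := by
      have : 1 ≤ N a - N l := by omega
      exact_mod_cast this
    gcongr
  · have h3 := le_osc f l a
    rw [hN a, hN l] at h3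
    refine le_trans ?_ h3
    rw [← sub_div]
    have : (1 : ℝ) ≤ (N l : ℝ) - N a := by
      have : 1 ≤ N l - N a := by omega
      exact_mod_cast this
    gcongr

theorem inv_step {f : Fin 4 → ℝ} {l v : Fin 4} {e : ℕ} (h : Inv f l e) (hv : v ≠ l) :
    Inv (upd 2 K4 v f) v (e + 1) := by
  obtain ⟨N, hN, h1, h2⟩ := h
  -- name the three neighbours of `v`, the first being `l`
  have hex : ∀ v l : Fin 4, v ≠ l → ∃ b c : Fin 4, v ≠ b ∧ v ≠ c ∧ l ≠ b ∧ l ≠ c ∧ b ≠ c := by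
    decide
  obtain ⟨b, c, hvb, hvc, hlb, hlc, hbc⟩ := hex v l hv
  have hval := newVal_two f hv hvb hvc hlb hlc hbc
  refine ⟨fun w => if w = v then N l + N b + N c else 3 * N w, ?_, ?_, ?_⟩
  · intro w
    by_cases hw : w = v
    · subst hw
      simp only [if_true]
      rw [upd_same, hval, hN l, hN b, hN c, pow_succ]
      push_cast
      field_simp
    · simp only [hw, if_false]
      rw [upd_of_ne 2 f hw, hN w, pow_succ]
      push_cast
      field_simp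
  · simp only [if_true]
    intro hdiv
    apply h1
    have hb := h2 b hlb.symm
    have hc := h2 c hlc.symm
    omega
  · intro w hw
    simp only [hw, if_false]
    exact Dvd.intro _ rfl

/-- State of the quadratic dynamics started from `ff` if the first update is not at `0`. -/
theorem inv_traj (ω : ℕ → Fin 4) (h0 : ω 0 ≠ 0) (t : ℕ) :
    ∃ e ≤ t + 1, Inv (traj (upd 2 K4) ff ω (t + 1)) (ω t) e ∧
      traj (upd 2 K4) ff ω (t + 1) (ω t) =
        newVal 2 K4 (traj (upd 2 K4) ff ω (t + 1)) (ω t) := by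
  have hnew : ∀ (f : Fin 4 → ℝ) (v : Fin 4), newVal 2 K4 (upd 2 K4 v f) v = newVal 2 K4 f v := by
    intro f v
    obtain ⟨a, b, c, h1, h2, h3, h4, h5, h6⟩ := exists_other v
    rw [newVal_two _ h1 h2 h3 h4 h5 h6, newVal_two _ h1 h2 h3 h4 h5 h6,
      upd_of_ne 2 f h1.symm, upd_of_ne 2 f h2.symm, upd_of_ne 2 f h3.symm]
  induction t with
  | zero =>
    refine ⟨1, le_rfl, ?_, ?_⟩
    · have hI : Inv ff 0 0 := by
        refine ⟨fun w => if w = 0 then 1 else 0, fun v => ?_, ?_, ?_⟩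
        · by_cases hv : v = 0 <;> simp [ff, hv]
        · simp
        · intro v hv
          simp [hv]
      exact inv_step hI h0
    · show upd 2 K4 (ω 0) ff (ω 0) = newVal 2 K4 (upd 2 K4 (ω 0) ff) (ω 0)
      rw [hnew, upd_same]
  | succ t ih =>
    obtain ⟨e, he, hI, hfix⟩ := ih
    set f := traj (upd 2 K4) ff ω (t + 1) with hf
    have htraj : traj (upd 2 K4) ff ω (t + 1 + 1) = upd 2 K4 (ω (t + 1)) f := rfl
    rw [htraj]
    by_cases hsame : ω (t + 1) = ω t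
    · have hupd : upd 2 K4 (ω (t + 1)) f = f := by
        funext w
        by_cases hw : w = ω (t + 1)
        · rw [hw, upd_same, hsame]; exact hfix.symm
        · exact upd_of_ne 2 f hw
      rw [hupd, hsame]
      exact ⟨e, by omega, hI, hfix⟩
    · refine ⟨e + 1, by omega, inv_step hI hsame, ?_⟩
      rw [hnew, upd_same]

theorem tau_two_ge (ω : ℕ → Fin 4) (h0 : ω 0 ≠ 0) {ε : ℝ} {n : ℕ} (hε : ε < 1 / 3 ^ n) :
    (n : ℕ∞) ≤ tau 2 K4 ff ε ω := by
  unfold tau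
  refine le_iInf₂ fun t ht => ?_
  by_contra hcon
  push Not at hcon
  have htn : t < n := by exact_mod_cast hcon
  have hmono : ∀ e ≤ n, (1 : ℝ) / 3 ^ n ≤ 1 / 3 ^ e := by
    intro e he
    apply one_div_le_one_div_of_le (by positivity)
    exact pow_le_pow_right₀ (by norm_num) he
  have hosc : 1 / 3 ^ n ≤ osc (traj (upd 2 K4) ff ω t) := by
    cases t with
    | zero =>
      have h1 := le_osc ff 0 1
      have h2 : ff 0 - ff 1 = 1 := by simp [ff]
      rw [h2] at h1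
      calc (1 : ℝ) / 3 ^ n ≤ 1 / 3 ^ 0 := hmono 0 (Nat.zero_le _)
        _ = 1 := by norm_num
        _ ≤ _ := h1
    | succ t =>
      obtain ⟨e, he, hI, -⟩ := inv_traj ω h0 t
      exact (hmono e (by omega)).trans (inv_osc hI)
  linarith

theorem lower {ε : ℝ} {n : ℕ} (hε : ε < 1 / 3 ^ n) :
    (n : ℝ≥0∞) * (3 / 4) ≤ meanTau 2 K4 ff ε := by
  have h1 : meanTau 2 K4 ff ε = ∫⁻ ω, ((tau 2 K4 ff ε ω : ℕ∞) : ℝ≥0∞) ∂(PP (Fin 4)) := rfl
  rw [h1]
  have hP := P_avoid 1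
  rw [pow_one] at hP
  have hset : {ω : ℕ → Fin 4 | ∀ s < 1, ω s ≠ 0} = {ω | ω 0 ≠ 0} := by
    ext ω
    simp
  rw [hset] at hP
  have hms : MeasurableSet {ω : ℕ → Fin 4 | ω 0 ≠ 0} :=
    (measurableSet_eq_fun (measurable_pi_apply 0) measurable_const).compl
  calc (n : ℝ≥0∞) * (3 / 4) = ∫⁻ ω, (n : ℝ≥0∞) *
        ({ω : ℕ → Fin 4 | ω 0 ≠ 0} : Set (ℕ → Fin 4)).indicator 1 ω ∂(PP (Fin 4)) := by
        rw [lintegral_const_mul _ (measurable_one.indicator hms), lintegral_indicator_one hms, hP]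
    _ ≤ ∫⁻ ω, ((tau 2 K4 ff ε ω : ℕ∞) : ℝ≥0∞) ∂(PP (Fin 4)) := by
        apply lintegral_mono
        intro ω
        by_cases h : ω 0 ≠ 0
        · have h2 := tau_two_ge ω h hε
          have h3 : ((n : ℕ∞) : ℝ≥0∞) ≤ ((tau 2 K4 ff ε ω : ℕ∞) : ℝ≥0∞) := by
            exact_mod_cast h2
          show (n : ℝ≥0∞) * ({ω : ℕ → Fin 4 | ω 0 ≠ 0} : Set (ℕ → Fin 4)).indicator 1 ω ≤ _
          rw [indicator_of_mem (show ω ∈ ({ω : ℕ → Fin 4 | ω 0 ≠ 0} : Set _) from h)]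
          simpa using h3
        · show (n : ℝ≥0∞) * ({ω : ℕ → Fin 4 | ω 0 ≠ 0} : Set (ℕ → Fin 4)).indicator 1 ω ≤ _
          rw [indicator_of_notMem (show ω ∉ ({ω : ℕ → Fin 4 | ω 0 ≠ 0} : Set _) from h), mul_zero]
          exact zero_le

/-- **There is no absolute constant `C` with `E τ_{p₂}(ε) ≤ C E τ_{p₁}(ε)` for all finite connected
graphs, all profiles, all `ε > 0` and all `1 < p₁ < p₂ < ∞`.** -/
theorem result : ¬ ∃ C : ℝ≥0, ∀ (V : Type) [Fintype V] [Nontrivial V] (G : SimpleGraph V),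
    G.Connected → ∀ f₀ : V → ℝ, (∀ v, 0 ≤ f₀ v ∧ f₀ v ≤ 1) → ∀ ε : ℝ, 0 < ε →
      ∀ p₁ p₂ : ℝ, 1 < p₁ → p₁ < p₂ → meanTau p₂ G f₀ ε ≤ (C : ℝ≥0∞) * meanTau p₁ G f₀ ε := by
  rintro ⟨C, hC⟩
  obtain ⟨n, hn⟩ := exists_nat_gt (7 * C)
  set ε : ℝ := 1 / 3 ^ n / 2 with hε
  have hεpos : 0 < ε := by positivity
  have hεlt : ε < 1 / 3 ^ n := by
    rw [hε]
    have : (0 : ℝ) < 1 / 3 ^ n := by positivity
    linarith
  -- choose `K`
  obtain ⟨K, hK⟩ : ∃ K : ℕ, 1 ≤ 2 ^ K * ε ∧ 0 < K := by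
    obtain ⟨K, hK⟩ := pow_unbounded_of_one_lt (1 / ε) (one_lt_two)
    refine ⟨K + 1, ?_, by omega⟩
    rw [div_lt_iff₀ hεpos] at hK
    have : (2 : ℝ) ^ (K + 1) = 2 ^ K * 2 := pow_succ _ _
    rw [this]
    nlinarith
  obtain ⟨hK1, hK0⟩ := hK
  -- choose `M`
  have hsum := summable_geom (rr_lt_one (2 * K)) (L := 2 * K) (by omega)
  have htend := ENNReal.tendsto_sum_nat_add _ hsum
  obtain ⟨M, hM⟩ := ((tendsto_order.1 htend).2 1 one_pos).exists
  -- choose `k`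
  obtain ⟨k, hk⟩ : ∃ k : ℕ, M * (1 / 2 : ℝ) ^ k ≤ ε ∧ 2 ≤ k := by
    have h1 : Tendsto (fun k : ℕ => (M : ℝ) * (1 / 2 : ℝ) ^ k) atTop (𝓝 0) := by
      have := (tendsto_pow_atTop_nhds_zero_of_lt_one (by norm_num : (0 : ℝ) ≤ 1 / 2)
        (by norm_num)).const_mul (M : ℝ)
      simpa using this
    have h2 := ((tendsto_order.1 h1).2 ε hεpos).and (eventually_ge_atTop 2)
    obtain ⟨k, hk1, hk2⟩ := h2.exists
    exact ⟨k, hk1.le, hk2⟩
  obtain ⟨hk1, hk2⟩ := hk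
  have hkpos : (0 : ℝ) < k := by exact_mod_cast (by omega : 0 < k)
  have hp : (1 : ℝ) < 1 + 1 / k := by
    have : 0 < 1 / (k : ℝ) := by positivity
    linarith
  have hp2 : (1 : ℝ) + 1 / k < 2 := by
    have h2 : (2 : ℝ) ≤ k := by exact_mod_cast hk2
    have : 1 / (k : ℝ) < 1 := by
      rw [div_lt_one hkpos]; linarith
    linarith
  have hδp : 1 / 2 ≤ ((1 / 2 : ℝ) ^ k) ^ ((1 : ℝ) + 1 / k - 1) := by
    have : ((1 / 2 : ℝ) ^ k) ^ ((1 : ℝ) + 1 / k - 1) = 1 / 2 := by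
      rw [← Real.rpow_natCast, ← Real.rpow_mul (by norm_num)]
      have : (k : ℝ) * (1 + 1 / k - 1) = 1 := by field_simp; ring
      rw [this, Real.rpow_one]
    rw [this]
  have hU := upper hp (by positivity : (0 : ℝ) < (1 / 2) ^ k) hδp hK1 hM.le hk1
  have hL := lower hεlt
  have hmain := hC (Fin 4) K4 (SimpleGraph.connected_top) ff cube_ff ε hεpos _ _ hp hp2
  have h1 : (n : ℝ≥0∞) * (3 / 4) ≤ (C : ℝ≥0∞) * 5 :=
    hL.trans (hmain.trans (by gcongr))
  have h2 : ((n : ℝ≥0∞) * (3 / 4)) * 4 = (n : ℝ≥0∞) * 3 := by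
    rw [mul_assoc, ENNReal.div_mul_cancel (by norm_num) (by norm_num)]
  have h3 : (n : ℝ≥0∞) * 3 ≤ (C : ℝ≥0∞) * 20 := by
    rw [← h2]
    calc ((n : ℝ≥0∞) * (3 / 4)) * 4 ≤ ((C : ℝ≥0∞) * 5) * 4 := by gcongr
      _ = (C : ℝ≥0∞) * 20 := by rw [mul_assoc]; norm_num
  have h4 : (n : ℝ≥0) * 3 ≤ C * 20 := by exact_mod_cast h3
  have h5 : (7 * C) * 3 < (n : ℝ≥0) * 3 := by gcongr
  have h6 : (7 * C) * 3 < C * 20 := lt_of_lt_of_le h5 h4
  have h7 : (7 * (C : ℝ)) * 3 < (C : ℝ) * 20 := by exact_mod_cast h6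
  have h8 : (0 : ℝ) ≤ C := C.2
  linarith

end Pool.Agent.Results.MP_7677b2_pr.NoUniformComparison
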